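import Mathlib

/-! Helper13 / DiffA: closed sets of nonnegative reals meeting the differences of any four reals:
elementary relations. -/

set_option autoImplicit false

open MeasureTheory Set

namespace H13D

/-- `x` or `-x` is a nonnegative real outside `S`. -/
def N (S : Set ℝ) (x : ℝ) : Prop := |x| ∉ S

/-- The points all of whose `r`-neighbourhood lies in `S`. -/
def Er (S : Set ℝ) (r : ℝ) : Set ℝ := {x | ∀ d : ℝ, |d| < r → x + d ∈ S}

/-- `S` meets the differences of any four reals. -/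
def P4 (S : Set ℝ) : Prop :=
  ∀ β : Fin 4 → ℝ, Function.Injective β → ∃ i j, β i < β j ∧ β j - β i ∈ S

theorem N_neg {S : Set ℝ} {x : ℝ} (h : N S x) : N S (-x) := by
  unfold N at *; rwa [abs_neg]

theorem N_sub_comm {S : Set ℝ} {x y : ℝ} (h : N S (x - y)) : N S (y - x) := by
  have := N_neg h; rwa [neg_sub] at this

theorem N_pos {S : Set ℝ} {x : ℝ} (hx : 0 ≤ x) : N S x ↔ x ∉ S := by
  unfold N; rw [abs_of_nonneg hx]

theorem zero_mem {S : Set ℝ} (hS : IsClosed S) (hP : P4 S) : (0 : ℝ) ∈ S := by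
  rw [← hS.closure_eq, Metric.mem_closure_iff]
  intro ε hε
  have hinj : Function.Injective (fun i : Fin 4 => (i : ℝ) * (ε / 4)) := by
    intro i j hij
    have h1 : ((i : ℕ) : ℝ) = ((j : ℕ) : ℝ) := by
      have h2 : (ε / 4) ≠ 0 := by positivity
      exact mul_right_cancel₀ h2 hij
    exact Fin.ext (by exact_mod_cast h1)
  obtain ⟨i, j, hlt, hm⟩ := hP _ hinj
  refine ⟨_, hm, ?_⟩
  rw [Real.dist_eq, zero_sub, abs_neg, abs_of_pos (by linarith)]
  have hj : ((j : ℕ) : ℝ) ≤ 3 := by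
    have := j.isLt
    exact_mod_cast (by omega : (j : ℕ) ≤ 3)
  have hi : (0 : ℝ) ≤ ((i : ℕ) : ℝ) := Nat.cast_nonneg _
  have h3 : ((j : ℕ) : ℝ) * (ε / 4) - ((i : ℕ) : ℝ) * (ε / 4) ≤ 3 * (ε / 4) := by
    nlinarith
  calc _ ≤ 3 * (ε / 4) := h3
    _ < ε := by linarith

theorem Q {S : Set ℝ} (h0 : (0 : ℝ) ∈ S) (hP : P4 S) (p q r : ℝ) (h1 : N S p) (h2 : N S q)
    (h3 : N S r) (h4 : N S (p + q)) (h5 : N S (q + r)) (h6 : N S (p + q + r)) : False := by
  have e : ∀ x, N S x → x ≠ 0 := by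
    rintro x hx rfl
    exact hx (by simpa using h0)
  obtain ⟨v, hv⟩ : ∃ v : Fin 4 → ℝ, v = ![0, p, p + q, p + q + r] := ⟨_, rfl⟩
  have h01 : N S (v 1 - v 0) := by
    have e1 : v 1 - v 0 = p := by rw [hv]; simp
    rwa [e1]
  have h02 : N S (v 2 - v 0) := by
    have e1 : v 2 - v 0 = p + q := by rw [hv]; simp
    rwa [e1]
  have h03 : N S (v 3 - v 0) := by
    have e1 : v 3 - v 0 = p + q + r := by rw [hv]; simp
    rwa [e1]
  have h12 : N S (v 2 - v 1) := by
    have e1 : v 2 - v 1 = q := by rw [hv]; simp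
    rwa [e1]
  have h13 : N S (v 3 - v 1) := by
    have e1 : v 3 - v 1 = q + r := by rw [hv]; simp; ring
    rwa [e1]
  have h23 : N S (v 3 - v 2) := by
    have e1 : v 3 - v 2 = r := by rw [hv]; simp
    rwa [e1]
  have key0 : ∀ i j : Fin 4, i < j → N S (v j - v i) := by
    intro i j hij
    fin_cases i <;> fin_cases j <;> first
      | (exfalso; revert hij; decide)
      | exact h01 | exact h02 | exact h03 | exact h12 | exact h13 | exact h23
  have key : ∀ i j : Fin 4, i ≠ j → N S (v j - v i) := by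
    intro i j hij
    rcases lt_or_gt_of_ne hij with h | h
    · exact key0 i j h
    · exact N_sub_comm (key0 j i h)
  obtain ⟨i, j, hlt, hm⟩ := hP v (by
    intro i j hij
    by_contra hne
    exact e _ (key i j hne) (by rw [hij, sub_self]))
  have hne : i ≠ j := by
    rintro rfl
    exact absurd hlt (lt_irrefl _)
  exact (N_pos (by linarith)).1 (key i j hne) hm

theorem Er_sub {S : Set ℝ} {r : ℝ} (hr : 0 < r) {x : ℝ} (hx : x ∈ Er S r) : x ∈ S := by
  have := hx 0 (by simpa using hr)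
  simpa using this

theorem Er_closed {S : Set ℝ} (hS : IsClosed S) (r : ℝ) : IsClosed (Er S r) := by
  have : Er S r = ⋂ d : ℝ, ⋂ _ : |d| < r, (fun x => x + d) ⁻¹' S := by
    ext x; simp [Er]
  rw [this]
  exact isClosed_iInter fun d => isClosed_iInter fun _ => hS.preimage (by fun_prop)

theorem win1 {S : Set ℝ} (hS : IsClosed S) {t m : ℝ} (ht : 0 < t)
    (hf : ∀ s, m ≤ s → s ≤ m + 2 * t → s ∈ S → s + t ∉ S) :
    ∃ a, m + t ≤ a ∧ a ≤ m + 2 * t ∧ a ∉ S ∧ a - t ∉ S := by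
  by_contra hcon
  push Not at hcon
  have hcl : IsClosed ((fun x : ℝ => x - t) ⁻¹' S) := hS.preimage (by fun_prop)
  have hc := isPreconnected_closed_iff.1 (isPreconnected_Icc (a := m + t) (b := m + 2 * t)) S
    ((fun x : ℝ => x - t) ⁻¹' S) hS hcl
  have h1 : Icc (m + t) (m + 2 * t) ⊆ S ∪ (fun x : ℝ => x - t) ⁻¹' S := by
    intro x hx
    by_cases hxS : x ∈ S
    · exact Or.inl hxS
    · exact Or.inr (hcon x hx.1 hx.2 hxS)
  have h2 : (Icc (m + t) (m + 2 * t) ∩ S).Nonempty := by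
    by_cases h : m + 2 * t ∈ S
    · exact ⟨m + 2 * t, ⟨by linarith, le_rfl⟩, h⟩
    · have := hcon (m + 2 * t) (by linarith) le_rfl h
      refine ⟨m + t, ⟨le_rfl, by linarith⟩, ?_⟩
      have e : m + 2 * t - t = m + t := by ring
      rwa [e] at this
  have h3 : (Icc (m + t) (m + 2 * t) ∩ (fun x : ℝ => x - t) ⁻¹' S).Nonempty := by
    by_cases h : m + t ∈ S
    · refine ⟨m + 2 * t, ⟨by linarith, le_rfl⟩, ?_⟩
      have e : m + 2 * t - t = m + t := by ring
      show m + 2 * t - t ∈ S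
      rwa [e]
    · exact ⟨m + t, ⟨le_rfl, by linarith⟩, hcon (m + t) le_rfl (by linarith) h⟩
  obtain ⟨x, hx, hxS, hxt⟩ := hc h1 h2 h3
  have h4 := hf (x - t) (by linarith [hx.1]) (by linarith [hx.2]) hxt
  rw [sub_add_cancel] at h4
  exact h4 hxS

theorem N_open {S : Set ℝ} (hS : IsClosed S) {x : ℝ} (h : N S x) :
    ∃ r > 0, ∀ d : ℝ, |d| < r → N S (x + d) := by
  have ho : IsOpen {y : ℝ | N S y} := by
    have : {y : ℝ | N S y} = (fun y : ℝ => |y|) ⁻¹' Sᶜ := rfl
    rw [this]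
    exact hS.isOpen_compl.preimage (by fun_prop)
  obtain ⟨r, hr, hb⟩ := Metric.isOpen_iff.1 ho x h
  refine ⟨r, hr, fun d hd => hb ?_⟩
  rw [Metric.mem_ball, Real.dist_eq, add_sub_cancel_left]
  exact hd

end H13D
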