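import Pool.Agent.Helper13.DiffA

/-! Helper13 / DiffB: counting with lengths. -/

set_option autoImplicit false

open MeasureTheory Set

namespace H13D

/-- Length of `E` in the window `(x, x+T]`. -/
noncomputable def V (E : Set ℝ) (x T : ℝ) : ℝ := volume.real (E ∩ Ioc x (x + T))

theorem fin_win (E : Set ℝ) (x y : ℝ) : volume (E ∩ Ioc x y) ≠ ⊤ :=
  ((measure_mono inter_subset_right).trans_lt (by rw [Real.volume_Ioc]; exact ENNReal.ofReal_lt_top)).ne

theorem V_nonneg (E : Set ℝ) (x T : ℝ) : 0 ≤ V E x T := measureReal_nonneg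

theorem V_mono {E F : Set ℝ} {x T : ℝ} (h : ∀ y, x < y → y ≤ x + T → y ∈ E → y ∈ F) :
    V E x T ≤ V F x T :=
  measureReal_mono (fun y hy => ⟨h y hy.2.1 hy.2.2 hy.1, hy.2⟩) (fin_win _ _ _)

theorem V_shift (E : Set ℝ) (c x T : ℝ) : V {y | y + c ∈ E} x T = V E (x + c) T := by
  unfold V Measure.real
  have h : {y | y + c ∈ E} ∩ Ioc x (x + T) = (fun y => y + c) ⁻¹' (E ∩ Ioc (x + c) (x + c + T)) := by
    ext y
    simp only [mem_inter_iff, mem_ofPred_eq, mem_Ioc, mem_preimage]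
    constructor
    · rintro ⟨h1, h2, h3⟩; exact ⟨h1, by linarith, by linarith⟩
    · rintro ⟨h1, h2, h3⟩; exact ⟨h1, by linarith, by linarith⟩
  rw [h, measure_preimage_add_right]

theorem V_cover {E F G : Set ℝ} {x T : ℝ} (hT : 0 ≤ T)
    (h : ∀ y, x < y → y ≤ x + T → y ∈ E ∨ y ∈ F ∨ y ∈ G) :
    T ≤ V E x T + V F x T + V G x T := by
  have h1 : volume.real (Ioc x (x + T)) = T := by
    rw [Real.volume_real_Ioc_of_le (by linarith)]; ring
  have h2 : Ioc x (x + T) ⊆ (E ∩ Ioc x (x + T) ∪ F ∩ Ioc x (x + T)) ∪ G ∩ Ioc x (x + T) := by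
    intro y hy
    rcases h y hy.1 hy.2 with h | h | h
    · exact Or.inl (Or.inl ⟨h, hy⟩)
    · exact Or.inl (Or.inr ⟨h, hy⟩)
    · exact Or.inr ⟨h, hy⟩
  have h3 : volume.real (Ioc x (x + T)) ≤ _ := measureReal_mono h2
    (by
      refine ne_of_lt (lt_of_le_of_lt (measure_mono (t := Ioc x (x + T)) ?_)
        (by rw [Real.volume_Ioc]; exact ENNReal.ofReal_lt_top))
      intro y hy
      rcases hy with (hy | hy) | hy
      · exact hy.2
      · exact hy.2
      · exact hy.2)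
  have h4 := measureReal_union_le (μ := volume) (E ∩ Ioc x (x + T) ∪ F ∩ Ioc x (x + T)) (G ∩ Ioc x (x + T))
  have h5 := measureReal_union_le (μ := volume) (E ∩ Ioc x (x + T)) (F ∩ Ioc x (x + T))
  unfold V
  linarith

theorem V_pack {E F G : Set ℝ} {x T : ℝ} (hT : 0 ≤ T) (hF : MeasurableSet F) (hG : MeasurableSet G)
    (h1 : ∀ y, x < y → y ≤ x + T → y ∈ E → y ∉ F) (h2 : ∀ y, x < y → y ≤ x + T → y ∈ E → y ∉ G)
    (h3 : ∀ y, x < y → y ≤ x + T → y ∈ F → y ∉ G) :
    V E x T + V F x T + V G x T ≤ T := by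
  have e1 : volume.real (Ioc x (x + T)) = T := by
    rw [Real.volume_real_Ioc_of_le (by linarith)]; ring
  have hfin := fin_win
  have h4 : volume.real (E ∩ Ioc x (x + T) ∪ F ∩ Ioc x (x + T)) =
      volume.real (E ∩ Ioc x (x + T)) + volume.real (F ∩ Ioc x (x + T)) :=
    measureReal_union (Set.disjoint_left.2 fun y hy hy' => h1 y hy.2.1 hy.2.2 hy.1 hy'.1)
      (hF.inter measurableSet_Ioc) (hfin _ _ _) (hfin _ _ _)
  have h5 : volume.real ((E ∩ Ioc x (x + T) ∪ F ∩ Ioc x (x + T)) ∪ G ∩ Ioc x (x + T)) =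
      volume.real (E ∩ Ioc x (x + T) ∪ F ∩ Ioc x (x + T)) + volume.real (G ∩ Ioc x (x + T)) :=
    measureReal_union (Set.disjoint_left.2 fun y hy hy' => by
      rcases hy with hy | hy
      · exact h2 y hy.2.1 hy.2.2 hy.1 hy'.1
      · exact h3 y hy.2.1 hy.2.2 hy.1 hy'.1)
      (hG.inter measurableSet_Ioc)
      (by rw [← union_inter_distrib_right]; exact hfin _ _ _) (hfin _ _ _)
  have h6 : volume.real ((E ∩ Ioc x (x + T) ∪ F ∩ Ioc x (x + T)) ∪ G ∩ Ioc x (x + T)) ≤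
      volume.real (Ioc x (x + T)) :=
    measureReal_mono (by
      intro y hy
      rcases hy with (hy | hy) | hy
      · exact hy.2
      · exact hy.2
      · exact hy.2) (by rw [Real.volume_Ioc]; exact ENNReal.ofReal_ne_top)
  unfold V
  linarith

theorem V_add {E : Set ℝ} (hE : MeasurableSet E) (x : ℝ) {T₁ T₂ : ℝ} (h1 : 0 ≤ T₁) (h2 : 0 ≤ T₂) :
    V E x (T₁ + T₂) = V E x T₁ + V E (x + T₁) T₂ := by
  unfold V
  rw [← measureReal_union (Set.disjoint_left.2 fun y hy hy' => absurd hy'.2.1 (not_lt.2 hy.2.2))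
      (hE.inter measurableSet_Ioc) (fin_win _ _ _) (fin_win _ _ _), ← inter_union_distrib_left,
    Ioc_union_Ioc_eq_Ioc (by linarith) (by linarith), add_assoc]

theorem V_sdiff {S F : Set ℝ} (hF : MeasurableSet F) (hFS : F ⊆ S) (x T : ℝ) :
    V S x T = V F x T + V (S \ F) x T := by
  unfold V
  have h := measureReal_inter_add_sdiff (μ := volume) (s := S ∩ Ioc x (x + T)) hF (fin_win _ _ _)
  have e1 : S ∩ Ioc x (x + T) ∩ F = F ∩ Ioc x (x + T) := by
    ext y
    simp only [mem_inter_iff]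
    constructor
    · rintro ⟨⟨_, h⟩, h'⟩; exact ⟨h', h⟩
    · rintro ⟨h, h'⟩; exact ⟨⟨hFS h, h'⟩, h⟩
  have e2 : (S ∩ Ioc x (x + T)) \ F = (S \ F) ∩ Ioc x (x + T) := by
    ext y
    simp only [mem_inter_iff, mem_sdiff]
    tauto
  rw [e1, e2] at h
  exact h.symm

/-- One unit of loss just above a point of `Er S r`. -/
theorem loss {S : Set ℝ} (hS : IsClosed S) {r t s : ℝ} (hr : 0 < r) (ht : 0 < t) (hs : s ∈ Er S r)
    (hst : s + t ∉ S) : r ≤ V (S \ Er S r) s t := by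
  have hne : (Er S r ∩ Icc s (s + t)).Nonempty := ⟨s, hs, le_rfl, by linarith⟩
  have hcl : IsClosed (Er S r ∩ Icc s (s + t)) := (Er_closed hS r).inter isClosed_Icc
  have hbd : BddAbove (Er S r ∩ Icc s (s + t)) := ⟨s + t, fun y hy => hy.2.2⟩
  obtain ⟨z, hz⟩ : ∃ z, z = sSup (Er S r ∩ Icc s (s + t)) := ⟨_, rfl⟩
  have hzm : z ∈ Er S r ∩ Icc s (s + t) := by rw [hz]; exact hcl.csSup_mem hne hbd
  have hzr : z + r ≤ s + t := by
    by_contra hcon
    push Not at hcon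
    apply hst
    have := hzm.1 (s + t - z) (by rw [abs_of_nonneg (by linarith [hzm.2.2])]; linarith)
    rwa [add_sub_cancel] at this
  have h1 : Ioo z (z + r) ⊆ (S \ Er S r) ∩ Ioc s (s + t) := by
    intro y hy
    refine ⟨⟨?_, ?_⟩, by linarith [hy.1, hzm.2.1], by linarith [hy.2]⟩
    · have := hzm.1 (y - z) (by rw [abs_of_pos (by linarith [hy.1])]; linarith [hy.2])
      rwa [add_sub_cancel] at this
    · intro hyE
      have : y ≤ z := by
        rw [hz]
        exact le_csSup hbd ⟨hyE, by linarith [hy.1, hzm.2.1], by linarith [hy.2]⟩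
      linarith [hy.1]
  have h2 : volume.real (Ioo z (z + r)) = r := by
    rw [Real.volume_real_Ioo_of_le (by linarith)]; ring
  calc r = volume.real (Ioo z (z + r)) := h2.symm
    _ ≤ _ := measureReal_mono h1 (fin_win _ _ _)

/-- The final counting contradiction. -/
theorem core {S : Set ℝ} (hS : IsClosed S)
    (hden : ∀ ε : ℝ, 0 < ε → ∃ T₀ : ℝ, ∀ a T : ℝ, 0 ≤ a → T₀ ≤ T →
      (1 / 2 - ε) * T ≤ (volume (S ∩ Icc a (a + T))).toReal)
    {t r : ℝ} (ht : 0 < t) (hr : 0 < r) (A B : ℝ) (hA : 0 ≤ A) (K : ℝ) (hK : A + |B| + t ≤ K) :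
    ∃ Lb : ℝ, ∀ x L : ℝ, 0 ≤ x → Lb ≤ L →
      (∀ s, x ≤ s → s ≤ x + L → s ∈ S → s + t ∉ S) →
      (∀ y, x + K ≤ y → y ≤ x + L - K →
        y - A ∈ Er S r ∨ y + B ∈ Er S r ∨ (y - A ∉ S ∧ y - A + t ∉ S)) → False := by
  have hden' : ∀ ε : ℝ, 0 < ε → ∃ T₀ : ℝ, ∀ a T : ℝ, 0 ≤ a → T₀ ≤ T → (1 / 2 - ε) * T ≤ V S a T := by
    intro ε hε
    obtain ⟨T₀, hT₀⟩ := hden ε hε
    refine ⟨T₀, fun a T ha hT => (hT₀ a T ha hT).trans (le_of_eq ?_)⟩
    unfold V Measure.real
    congr 1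
    exact measure_congr ((Filter.EventuallyEq.refl _ S).inter Ioc_ae_eq_Icc.symm)
  obtain ⟨T₀, hT₀⟩ := hden' (1 / 10) (by norm_num)
  obtain ⟨T₁, hT₁⟩ : ∃ T₁, T₁ = max T₀ 1 := ⟨_, rfl⟩
  have hT₁1 : 1 ≤ T₁ := by rw [hT₁]; exact le_max_right _ _
  have hT₁0 : T₀ ≤ T₁ := by rw [hT₁]; exact le_max_left _ _
  obtain ⟨Bk, hBk⟩ : ∃ Bk, Bk = T₁ + t := ⟨_, rfl⟩
  have hBk0 : 0 < Bk := by rw [hBk]; linarith
  obtain ⟨ε, hε⟩ : ∃ ε, ε = r / (4 * Bk) := ⟨_, rfl⟩
  have hε0 : 0 < ε := by rw [hε]; positivity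
  obtain ⟨T₂, hT₂⟩ := hden' ε hε0
  obtain ⟨n, hn⟩ := exists_nat_gt (max (T₂ / Bk) 1)
  have hn1 : (1 : ℝ) < n := (le_max_right _ _).trans_lt hn
  have hnT : T₂ ≤ n * Bk := by
    have := ((le_max_left _ _).trans_lt hn).le
    rwa [div_le_iff₀ hBk0] at this
  have hB := abs_nonneg B
  have hB1 := le_abs_self B
  have hB2 := neg_abs_le B
  refine ⟨n * Bk + 2 * K, ?_⟩
  intro x L hx hL hf hc
  have hSm : MeasurableSet S := hS.measurableSet
  have hEm : MeasurableSet (Er S r) := (Er_closed hS r).measurableSet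
  have hSt : MeasurableSet {w | w + t ∈ S} :=
    (hS.preimage (f := fun w : ℝ => w + t) (by fun_prop)).measurableSet
  have hWm : MeasurableSet {w | w ∉ S ∧ w + t ∉ S} := hSm.compl.inter hSt.compl
  have hES : Er S r ⊆ S := fun y hy => Er_sub hr hy
  -- disjointness
  have hdis : ∀ z T : ℝ, 0 ≤ T → x ≤ z → z + T ≤ x + L →
      V S z T + V S (z + t) T + V {w | w ∉ S ∧ w + t ∉ S} z T ≤ T := by
    intro z T hT hz hzT
    rw [← V_shift S t z T]
    refine V_pack hT hSt hWm ?_ ?_ ?_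
    · intro y h1 h2 hy
      exact hf y (by linarith) (by linarith) hy
    · intro y h1 h2 hy hy'
      exact hy'.1 hy
    · intro y h1 h2 hy hy'
      exact hy'.2 hy
  -- covering
  have hcov : ∀ z T : ℝ, 0 ≤ T → x + K ≤ z → z + T ≤ x + L - K →
      T ≤ V (Er S r) (z - A) T + V (Er S r) (z + B) T + V {w | w ∉ S ∧ w + t ∉ S} (z - A) T := by
    intro z T hT hz hzT
    have h := V_cover (E := {y | y + (-A) ∈ Er S r}) (F := {y | y + B ∈ Er S r})
      (G := {y | y + (-A) ∈ {w | w ∉ S ∧ w + t ∉ S}}) (x := z) hT ?_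
    · rw [V_shift, V_shift, V_shift] at h
      simpa [sub_eq_add_neg] using h
    · intro y h1 h2
      rcases hc y (by linarith) (by linarith) with h | h | h
      · exact Or.inl (by simpa [sub_eq_add_neg] using h)
      · exact Or.inr (Or.inl h)
      · exact Or.inr (Or.inr (by simpa [sub_eq_add_neg] using h))
  -- lower bound for the eroded set
  have hlow : ∀ z T δ : ℝ, 0 ≤ T → x + K ≤ z → z + T ≤ x + L - K →
      (1 / 2 - δ) * T ≤ V S (z - A + t) T → (1 / 2 - δ) * T ≤ V (Er S r) (z + B) T := by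
    intro z T δ hT hz hzT hd
    have h1 := hcov z T hT hz hzT
    have h2 := hdis (z - A) T hT (by linarith) (by linarith)
    have h3 : V (Er S r) (z - A) T ≤ V S (z - A) T := V_mono fun y _ _ hy => hES hy
    linarith
  -- blocks
  have hblock : ∀ z : ℝ, x + K ≤ z → z + Bk ≤ x + L - K → r ≤ V (S \ Er S r) (z + B) Bk := by
    intro z hz hzB
    have h1 := hlow z T₁ (1 / 10) (by linarith) hz (by linarith)
      (hT₀ _ _ (by linarith) hT₁0)
    have h2 : 0 < V (Er S r) (z + B) T₁ := by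
      have : 0 < (1 / 2 - 1 / 10) * T₁ := by
        have : (1 / 2 - 1 / 10 : ℝ) = 2 / 5 := by norm_num
        rw [this]; positivity
      linarith
    have h3 : (Er S r ∩ Ioc (z + B) (z + B + T₁)).Nonempty := by
      by_contra hcon
      rw [not_nonempty_iff_eq_empty] at hcon
      unfold V at h2
      rw [hcon] at h2
      simp at h2
    obtain ⟨s, hs, hs1, hs2⟩ := h3
    have h4 : s + t ∉ S := hf s (by linarith) (by linarith) (hES hs)
    have h5 := loss hS hr ht hs h4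
    refine h5.trans (measureReal_mono ?_ (fin_win _ _ _))
    intro y hy
    refine ⟨hy.1, by linarith [hy.2.1], ?_⟩
    have := hy.2.2
    rw [hBk]; linarith
  have hsum : ∀ j : ℕ, (j : ℝ) * Bk ≤ n * Bk → (j : ℝ) * r ≤ V (S \ Er S r) (x + K + B) (j * Bk) := by
    intro j
    induction j with
    | zero => intro _; simpa using V_nonneg _ _ _
    | succ j ih =>
      intro hj
      push_cast at hj ⊢
      have h1 := ih (by nlinarith)
      have e1 : ((j : ℝ) + 1) * Bk = j * Bk + Bk := by ring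
      rw [e1, V_add (hSm.diff hEm) _ (by positivity) hBk0.le]
      have h2 := hblock (x + K + j * Bk) (by nlinarith [hBk0, (Nat.cast_nonneg j : (0 : ℝ) ≤ j)])
        (by nlinarith)
      have e2 : x + K + (j : ℝ) * Bk + B = x + K + B + j * Bk := by ring
      rw [e2] at h2
      linarith
  have hT : 0 ≤ (n : ℝ) * Bk := by positivity
  have f1 := hsum n le_rfl
  have f2 := hlow (x + K) (n * Bk) ε hT le_rfl (by linarith) (hT₂ _ _ (by linarith) hnT)
  have f3 := hdis (x + K + B) (n * Bk) hT (by linarith) (by linarith)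
  have f4 := hT₂ (x + K + B + t) (n * Bk) (by linarith) hnT
  have f5 := V_sdiff hEm hES (x + K + B) (n * Bk)
  have f6 := V_nonneg {w | w ∉ S ∧ w + t ∉ S} (x + K + B) (n * Bk)
  have f7 : 2 * ε * (n * Bk) = n * r / 2 := by
    rw [hε]; field_simp; ring
  have f8 : 0 < (n : ℝ) * r := by positivity
  nlinarith

end H13D
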