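import Pool.Agent.Helper13.DiffB

/-! Helper13 / DiffC: every nonnegative real is the difference of two elements of `S`, with bounded gaps. -/

set_option autoImplicit false

open MeasureTheory Set

namespace H13D

theorem notEr {S : Set ℝ} {r x : ℝ} (h : x ∉ Er S r) : ∃ d : ℝ, |d| < r ∧ x + d ∉ S := by
  unfold Er at h
  simp only [mem_ofPred_eq, not_forall] at h
  obtain ⟨d, hd, h⟩ := h
  exact ⟨d, hd, h⟩

theorem coverU {S : Set ℝ} {a b t r K : ℝ} (ht : 0 < t) (hr : 0 < r) (ha : 0 ≤ a)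
    (h1 : ∀ y d e : ℝ, |d| < r → |e| < r → N S y → N S (y - (a + d)) → N S (y + (b + e) - t) → False)
    (h2 : ∀ y d e : ℝ, |d| < r → |e| < r → N S y → N S (y - (a + d) + t) → N S (y + (b + e)) → False)
    (hK : a + |b - t| + 5 * t + 2 * r ≤ K) {x L : ℝ} (hx : 0 ≤ x)
    (hf : ∀ s, x ≤ s → s ≤ x + L → s ∈ S → s + t ∉ S) :
    ∀ y, x + K ≤ y → y ≤ x + L - K →
      y - a ∈ Er S r ∨ y + (b - t) ∈ Er S r ∨ (y - a ∉ S ∧ y - a + t ∉ S) := by
  intro y hy1 hy2
  by_contra hcon
  push Not at hcon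
  obtain ⟨hc1, hc2, -⟩ := hcon
  obtain ⟨d, hd, hd'⟩ := notEr hc1
  obtain ⟨e, he, he'⟩ := notEr hc2
  have hb := abs_nonneg (b - t)
  have hb1 := le_abs_self (b - t)
  have hb2 := neg_abs_le (b - t)
  have hd1 := abs_lt.1 hd
  have he1 := abs_lt.1 he
  have p1 : N S (y - a + d) := (N_pos (by linarith)).2 hd'
  have p2 : N S (y + (b - t) + e) := (N_pos (by linarith)).2 he'
  by_cases hy : y ∈ S
  · have hyt : y - t ∉ S := by
      intro h
      have := hf (y - t) (by linarith) (by linarith) h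
      rw [sub_add_cancel] at this
      exact this hy
    refine h2 (y - t) (-d) e (by rwa [abs_neg]) he ((N_pos (by linarith)).2 hyt) ?_ ?_
    · convert p1 using 1; ring
    · convert p2 using 1; ring
  · refine h1 y (-d) e (by rwa [abs_neg]) he ((N_pos (by linarith)).2 hy) ?_ ?_
    · convert p1 using 1; ring
    · convert p2 using 1; ring

theorem coverS {S : Set ℝ} {a b t r K : ℝ} (ht : 0 < t) (hr : 0 < r) (ha : 0 ≤ a)
    (h1 : ∀ y d e : ℝ, |d| < r → |e| < r → N S y → N S (y - (a + d)) → N S (y + (b + e)) → False)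
    (h2 : ∀ y d e : ℝ, |d| < r → |e| < r → N S y → N S (y - t + (b + e)) → N S (y + t - (a + d)) → False)
    (hK : a + |b| + 5 * t + 2 * r ≤ K) {x L : ℝ} (hx : 0 ≤ x)
    (hf : ∀ s, x ≤ s → s ≤ x + L → s ∈ S → s + t ∉ S) :
    ∀ y, x + K ≤ y → y ≤ x + L - K →
      y - a ∈ Er S r ∨ y + b ∈ Er S r ∨ (y - a ∉ S ∧ y - a + t ∉ S) := by
  intro y hy1 hy2
  have hb := abs_nonneg b
  have hb1 := le_abs_self b
  have hb2 := neg_abs_le b
  by_cases hc1 : y - a ∈ Er S r
  · exact Or.inl hc1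
  by_cases hc2 : y + b ∈ Er S r
  · exact Or.inr (Or.inl hc2)
  obtain ⟨d, hd, hd'⟩ := notEr hc1
  obtain ⟨e, he, he'⟩ := notEr hc2
  have hd1 := abs_lt.1 hd
  have he1 := abs_lt.1 he
  have p1 : N S (y - a + d) := (N_pos (by linarith)).2 hd'
  have p2 : N S (y + b + e) := (N_pos (by linarith)).2 he'
  have hz : |(0 : ℝ)| < r := by simpa using hr
  by_cases hy : y ∈ S
  · refine Or.inr (Or.inr ?_)
    -- the two neighbours
    have hyt : y - t ∉ S := by
      intro h
      have := hf (y - t) (by linarith) (by linarith) h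
      rw [sub_add_cancel] at this
      exact this hy
    have hyt' : y + t ∉ S := hf y (by linarith) (by linarith) hy
    have b1 : y + 2 * t - a ∈ S := by
      by_contra hb
      refine h2 (y + t) 0 e hz he ((N_pos (by linarith)).2 hyt') ?_ ?_
      · convert p2 using 1; ring
      · have := (N_pos (S := S) (x := y + 2 * t - a) (by linarith)).2 hb
        convert this using 1; ring
    have b2 : y - 2 * t + b ∈ S := by
      by_contra hb
      refine h2 (y - t) (-d) 0 (by rwa [abs_neg]) hz ((N_pos (by linarith)).2 hyt) ?_ ?_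
      · have := (N_pos (S := S) (x := y - 2 * t + b) (by linarith)).2 hb
        convert this using 1; ring
      · convert p1 using 1; ring
    have b3 : y - t + b ∉ S := by
      have := hf (y - 2 * t + b) (by linarith) (by linarith) b2
      have e1 : y - 2 * t + b + t = y - t + b := by ring
      rwa [e1] at this
    have b4 : y - t - a ∈ S := by
      by_contra hb
      refine h1 (y - t) 0 0 hz hz ((N_pos (by linarith)).2 hyt) ?_ ?_
      · have := (N_pos (S := S) (x := y - t - a) (by linarith)).2 hb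
        convert this using 1; ring
      · have := (N_pos (S := S) (x := y - t + b) (by linarith)).2 b3
        convert this using 1; ring
    refine ⟨?_, ?_⟩
    · have := hf (y - t - a) (by linarith) (by linarith) b4
      have e1 : y - t - a + t = y - a := by ring
      rwa [e1] at this
    · intro h
      have := hf (y - a + t) (by linarith) (by linarith) h
      have e1 : y - a + t + t = y + 2 * t - a := by ring
      rw [e1] at this
      exact this b1
  · exact (h1 y (-d) e (by rwa [abs_neg]) he ((N_pos (by linarith)).2 hy)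
      (by convert p1 using 1; ring) (by convert p2 using 1; ring)).elim

/-- **Main theorem.** -/
theorem main {S : Set ℝ} (hS : IsClosed S) (hP : P4 S)
    (hden : ∀ ε : ℝ, 0 < ε → ∃ T₀ : ℝ, ∀ a T : ℝ, 0 ≤ a → T₀ ≤ T →
      (1 / 2 - ε) * T ≤ (volume (S ∩ Icc a (a + T))).toReal)
    {t : ℝ} (ht : 0 < t) : ∃ L : ℝ, ∀ x : ℝ, 0 ≤ x → ∃ s ∈ S, x ≤ s ∧ s ≤ x + L ∧ s + t ∈ S := by
  by_contra hcon
  push Not at hcon
  have hw : ∀ L : ℝ, ∃ x : ℝ, 0 ≤ x ∧ ∀ s, x ≤ s → s ≤ x + L → s ∈ S → s + t ∉ S := by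
    intro L
    obtain ⟨x, hx, h⟩ := hcon L
    exact ⟨x, hx, fun s h1 h2 h3 => h s h3 h1 h2⟩
  have h0 := zero_mem hS hP
  obtain ⟨x₁, hx₁, f₁⟩ := hw (2 * t)
  obtain ⟨a, ha1, ha2, haS, hatS⟩ := win1 hS ht f₁
  obtain ⟨x₂, hx₂, f₂⟩ := hw (a + 8 * t)
  obtain ⟨b, hb1, hb2, hbS, hbtS⟩ := win1 (m := x₂ + 2 * t) hS ht
    (fun s h1 h2 hs => f₂ s (by linarith) (by linarith) hs)
  obtain ⟨r₁, hr₁, g₁⟩ := N_open hS ((N_pos (by linarith)).2 haS)
  obtain ⟨r₂, hr₂, g₂⟩ := N_open hS ((N_pos (by linarith)).2 hatS)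
  obtain ⟨r₃, hr₃, g₃⟩ := N_open hS ((N_pos (by linarith)).2 hbS)
  obtain ⟨r₄, hr₄, g₄⟩ := N_open hS ((N_pos (by linarith)).2 hbtS)
  obtain ⟨r, hr⟩ : ∃ r, r = min (min (min r₁ r₂) (min r₃ r₄)) t := ⟨_, rfl⟩
  have hr0 : 0 < r := by rw [hr]; positivity
  have hrt : r ≤ t := by rw [hr]; exact min_le_right _ _
  have q₁ : r ≤ r₁ := by
    rw [hr]; exact (min_le_left _ _).trans ((min_le_left _ _).trans (min_le_left _ _))
  have q₂ : r ≤ r₂ := by
    rw [hr]; exact (min_le_left _ _).trans ((min_le_left _ _).trans (min_le_right _ _))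
  have q₃ : r ≤ r₃ := by
    rw [hr]; exact (min_le_left _ _).trans ((min_le_right _ _).trans (min_le_left _ _))
  have q₄ : r ≤ r₄ := by
    rw [hr]; exact (min_le_left _ _).trans ((min_le_right _ _).trans (min_le_right _ _))
  by_cases hcase : ∃ d e : ℝ, |d| < r ∧ |e| < r ∧ N S ((a + d) + (b + e) - t)
  · obtain ⟨d₀, e₀, hd₀, he₀, hN⟩ := hcase
    obtain ⟨ρ, hρ, g₅⟩ := N_open hS hN
    obtain ⟨q, hq⟩ : ∃ q, q = min (min (r - |d₀|) (r - |e₀|)) (ρ / 2) := ⟨_, rfl⟩
    have hq0 : 0 < q := by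
      rw [hq]; exact lt_min (lt_min (by linarith) (by linarith)) (by linarith)
    have hq1 : q ≤ r - |d₀| := by rw [hq]; exact (min_le_left _ _).trans (min_le_left _ _)
    have hq2 : q ≤ r - |e₀| := by rw [hq]; exact (min_le_left _ _).trans (min_le_right _ _)
    have hq3 : q ≤ ρ / 2 := by rw [hq]; exact min_le_right _ _
    have hd1 := abs_lt.1 hd₀
    have hd2 : ∀ d : ℝ, |d| < q → |d₀ + d| < r := fun d hd =>
      (abs_add_le _ _).trans_lt (by linarith)
    have he2 : ∀ d : ℝ, |d| < q → |e₀ + d| < r := fun d hd =>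
      (abs_add_le _ _).trans_lt (by linarith)
    have k5 : ∀ d e : ℝ, |d| < q → |e| < q → N S ((a + d₀ + d) + (b + e₀ + e) - t) := by
      intro d e hd he
      have := g₅ (d + e) ((abs_add_le _ _).trans_lt (by linarith))
      convert this using 1; ring
    have hrel1 : ∀ y d e : ℝ, |d| < q → |e| < q → N S y → N S (y - ((a + d₀) + d)) →
        N S (y + ((b + e₀) + e) - t) → False := by
      intro y d e hd he h1 h2 h3
      refine Q h0 hP (y - ((a + d₀) + d)) ((a + d₀) + d) ((b + e₀) + e - t) h2 ?_ ?_ ?_ ?_ ?_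
      · have := g₁ (d₀ + d) ((hd2 d hd).trans_le q₁)
        convert this using 1; ring
      · have := g₄ (e₀ + e) ((he2 e he).trans_le q₄)
        convert this using 1; ring
      · convert h1 using 1; ring
      · convert k5 d e hd he using 1; ring
      · convert h3 using 1; ring
    have hrel2 : ∀ y d e : ℝ, |d| < q → |e| < q → N S y → N S (y - ((a + d₀) + d) + t) →
        N S (y + ((b + e₀) + e)) → False := by
      intro y d e hd he h1 h2 h3
      refine Q h0 hP (y - ((a + d₀) + d) + t) ((a + d₀) + d - t) ((b + e₀) + e) h2 ?_ ?_ ?_ ?_ ?_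
      · have := g₂ (d₀ + d) ((hd2 d hd).trans_le q₂)
        convert this using 1; ring
      · have := g₃ (e₀ + e) ((he2 e he).trans_le q₃)
        convert this using 1; ring
      · convert h1 using 1; ring
      · convert k5 d e hd he using 1; ring
      · convert h3 using 1; ring
    obtain ⟨Lb, hLb⟩ := core hS hden ht hq0 (a + d₀) (b + e₀ - t) (by linarith)
      ((a + d₀) + |b + e₀ - t| + 5 * t + 2 * q) (by linarith)
    obtain ⟨x₃, hx₃, f₃⟩ := hw Lb
    exact hLb x₃ Lb hx₃ le_rfl f₃ (coverU ht hq0 (by linarith) hrel1 hrel2 le_rfl hx₃ f₃)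
  · push Not at hcase
    have k5 : ∀ d e : ℝ, |d| < r → |e| < r → N S ((a + d) + (b + e)) ∧
        N S ((a + d) + (b + e) - 2 * t) := by
      intro d e hd he
      have hd1 := abs_lt.1 hd
      have he1 := abs_lt.1 he
      have h1 : (a + d) + (b + e) - t ∈ S := by
        by_contra h
        exact hcase d e hd he ((N_pos (by linarith)).2 h)
      have h2 := f₂ _ (by linarith) (by linarith) h1
      rw [sub_add_cancel] at h2
      refine ⟨(N_pos (by linarith)).2 h2, (N_pos (by linarith)).2 ?_⟩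
      intro h
      have := f₂ _ (by linarith) (by linarith) h
      have e1 : (a + d) + (b + e) - 2 * t + t = (a + d) + (b + e) - t := by ring
      rw [e1] at this
      exact this h1
    have hrel1 : ∀ y d e : ℝ, |d| < r → |e| < r → N S y → N S (y - (a + d)) →
        N S (y + (b + e)) → False := by
      intro y d e hd he h1 h2 h3
      refine Q h0 hP (y - (a + d)) (a + d) (b + e) h2 (g₁ d (hd.trans_le q₁)) (g₃ e (he.trans_le q₃))
        ?_ (k5 d e hd he).1 ?_
      · convert h1 using 1; ring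
      · convert h3 using 1; ring
    have hrel2 : ∀ y d e : ℝ, |d| < r → |e| < r → N S y → N S (y - t + (b + e)) →
        N S (y + t - (a + d)) → False := by
      intro y d e hd he h1 h2 h3
      refine Q h0 hP (y - t + (b + e)) (t - (b + e)) (t - (a + d)) h2 ?_ ?_ ?_ ?_ ?_
      · have := g₄ e (he.trans_le q₄)
        apply N_sub_comm
        convert this using 1; ring
      · have := g₂ d (hd.trans_le q₂)
        apply N_sub_comm
        convert this using 1; ring
      · convert h1 using 1; ring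
      · have := N_neg (k5 d e hd he).2
        convert this using 1; ring
      · convert h3 using 1; ring
    obtain ⟨Lb, hLb⟩ := core hS hden ht hr0 a b (by linarith)
      (a + |b| + 5 * t + 2 * r) (by linarith)
    obtain ⟨x₃, hx₃, f₃⟩ := hw Lb
    exact hLb x₃ Lb hx₃ le_rfl f₃ (coverS ht hr0 (by linarith) hrel1 hrel2 le_rfl hx₃ f₃)

/-- The same for every `t ≥ 0`. -/
theorem main0 {S : Set ℝ} (hS : IsClosed S) (hP : P4 S)
    (hden : ∀ ε : ℝ, 0 < ε → ∃ T₀ : ℝ, ∀ a T : ℝ, 0 ≤ a → T₀ ≤ T →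
      (1 / 2 - ε) * T ≤ (volume (S ∩ Icc a (a + T))).toReal)
    {t : ℝ} (ht : 0 ≤ t) : ∃ L : ℝ, ∀ x : ℝ, 0 ≤ x → ∃ s ∈ S, x ≤ s ∧ s ≤ x + L ∧ s + t ∈ S := by
  rcases ht.lt_or_eq with h | h
  · exact main hS hP hden h
  · subst h
    obtain ⟨T₀, hT₀⟩ := hden (1 / 4) (by norm_num)
    refine ⟨max T₀ 1, fun x hx => ?_⟩
    have h1 := hT₀ x (max T₀ 1) hx (le_max_left _ _)
    have h2 : (0 : ℝ) < (1 / 2 - 1 / 4) * max T₀ 1 := by
      have : (1 : ℝ) ≤ max T₀ 1 := le_max_right _ _
      nlinarith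
    have h3 : (S ∩ Icc x (x + max T₀ 1)).Nonempty := by
      by_contra hcon
      rw [not_nonempty_iff_eq_empty] at hcon
      rw [hcon] at h1
      simp at h1
      linarith
    obtain ⟨s, hs, hs1, hs2⟩ := h3
    exact ⟨s, hs, hs1, hs2, by rwa [add_zero]⟩

end H13D
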