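import Pool.Agent.Helper13.DiffB

/-! Helper13 / DiffD: a closed set which meets the differences of any `k` reals contains intervals of a uniform
length around at least `1/(k-1)` of all reals. -/

set_option autoImplicit false

open MeasureTheory Set

namespace H13D

/-- the `r`-neighbourhoods of the points `p 0, …, p (j-1)` have all mutual differences outside `S` -/
def Ind (S : Set ℝ) (j : ℕ) (p : Fin j → ℝ) (r : ℝ) : Prop :=
  ∀ a b : Fin j, a ≠ b → ∀ d : ℝ, |d| < r → N S (p a - p b + d)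

/-- `S` meets the differences of any `k` reals. -/
def PK (k : ℕ) (S : Set ℝ) : Prop :=
  ∀ β : Fin k → ℝ, Function.Injective β → ∃ i j, β i < β j ∧ β j - β i ∈ S

theorem zero_mem_PK {S : Set ℝ} (hS : IsClosed S) {k : ℕ} (hP : PK k S) : (0 : ℝ) ∈ S := by
  rw [← hS.closure_eq, Metric.mem_closure_iff]
  intro ε hε
  have hk0 : (0 : ℝ) < (k : ℝ) + 1 := by positivity
  have hinj : Function.Injective (fun i : Fin k => (i : ℝ) * (ε / (k + 1))) := by
    intro i j hij
    have h1 : ((i : ℕ) : ℝ) = ((j : ℕ) : ℝ) := by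
      have h2 : (ε / ((k : ℝ) + 1)) ≠ 0 := by positivity
      exact mul_right_cancel₀ h2 hij
    exact Fin.ext (by exact_mod_cast h1)
  obtain ⟨i, j, hlt, hm⟩ := hP _ hinj
  refine ⟨_, hm, ?_⟩
  rw [Real.dist_eq, zero_sub, abs_neg, abs_of_pos (by linarith)]
  have hj : ((j : ℕ) : ℝ) ≤ k := by exact_mod_cast j.isLt.le
  have hi : (0 : ℝ) ≤ ((i : ℕ) : ℝ) := Nat.cast_nonneg _
  have h4 : 0 < ε / ((k : ℝ) + 1) := by positivity
  have h3 : ((j : ℕ) : ℝ) * (ε / (k + 1)) - ((i : ℕ) : ℝ) * (ε / (k + 1)) ≤ k * (ε / (k + 1)) := by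
    nlinarith
  have h5 : ((k : ℝ) + 1) * (ε / (k + 1)) = ε := by field_simp
  calc _ ≤ (k : ℝ) * (ε / (k + 1)) := h3
    _ < ε := by nlinarith

theorem no_Ind {S : Set ℝ} (hS : IsClosed S) {k : ℕ} (hP : PK k S) {p : Fin k → ℝ} {r : ℝ} (hr : 0 < r) :
    ¬ Ind S k p r := by
  intro h
  have h0 := zero_mem_PK hS hP
  have hz : |(0 : ℝ)| < r := by simpa using hr
  obtain ⟨i, j, hlt, hm⟩ := hP p (by
    intro a b hab
    by_contra hne
    have := h a b hne 0 hz
    rw [hab, sub_self, add_zero] at this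
    exact this (by simpa using h0))
  have hne : j ≠ i := by
    rintro rfl
    exact absurd hlt (lt_irrefl _)
  have := h j i hne 0 hz
  rw [add_zero] at this
  exact (N_pos (by linarith)).1 this hm

/-- The maximal independent configuration: all reals are covered by `j ≤ k - 1` translates of the
deep points (of the symmetric set). -/
theorem cover_PK {S : Set ℝ} (hS : IsClosed S) {k : ℕ} (hP : PK k S) :
    ∃ (j : ℕ) (p : Fin j → ℝ) (r : ℝ), 1 ≤ j ∧ j < k ∧ 0 < r ∧
      ∀ y : ℝ, ∃ i : Fin j, ∀ d : ℝ, |d| < r → |y - p i + d| ∈ S := by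
  classical
  -- the largest `j` with an independent configuration
  have h1 : ∃ j : ℕ, (∃ (p : Fin j → ℝ) (r : ℝ), 0 < r ∧ Ind S j p r) ∧
      ¬ ∃ (p : Fin (j + 1) → ℝ) (r : ℝ), 0 < r ∧ Ind S (j + 1) p r := by
    by_contra hcon
    push Not at hcon
    have h2 : ∀ j : ℕ, ∃ (p : Fin j → ℝ) (r : ℝ), 0 < r ∧ Ind S j p r := by
      intro j
      induction j with
      | zero => exact ⟨Fin.elim0, 1, one_pos, fun a => a.elim0⟩
      | succ j ih =>
        obtain ⟨p, r, hr, hI⟩ := ih
        exact hcon j ⟨p, r, hr, hI⟩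
    obtain ⟨p, r, hr, hI⟩ := h2 k
    exact no_Ind hS hP hr hI
  obtain ⟨j, ⟨p, r, hr, hI⟩, hmax⟩ := h1
  have hj1 : 1 ≤ j := by
    by_contra hj
    have : j = 0 := by omega
    subst this
    exact hmax ⟨fun _ => 0, 1, one_pos, fun a b hab => absurd (Subsingleton.elim (α := Fin 1) a b) hab⟩
  have hjk : j < k := by
    by_contra hj
    push Not at hj
    exact no_Ind hS hP hr (p := fun i => p (Fin.castLE hj i)) (r := r) (by
      intro a b hab d hd
      exact hI _ _ (fun h => hab (Fin.castLE_injective hj h)) d hd)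
  refine ⟨j, p, r / 2, hj1, hjk, by linarith, ?_⟩
  intro y
  by_contra hcon
  push Not at hcon
  choose d hd hd' using hcon
  apply hmax
  -- the new configuration: p i - d i, and y
  have ho : ∀ i : Fin j, ∃ ρ > 0, ∀ e : ℝ, |e| < ρ → N S (y - p i + d i + e) :=
    fun i => N_open hS (hd' i)
  choose ρ hρ hρ' using ho
  have hfin : ∃ σ > 0, ∀ i : Fin j, σ ≤ ρ i := by
    have hne : (Finset.univ : Finset (Fin j)).Nonempty := ⟨⟨0, by omega⟩, Finset.mem_univ _⟩
    obtain ⟨i₀, -, hi₀⟩ := Finset.exists_min_image (Finset.univ : Finset (Fin j)) ρ hne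
    exact ⟨ρ i₀, hρ i₀, fun i => hi₀ i (Finset.mem_univ i)⟩
  obtain ⟨τ, hτ, hτ'⟩ : ∃ τ > 0, ∀ i : Fin j, |d i| + τ ≤ r / 2 := by
    have hne : (Finset.univ : Finset (Fin j)).Nonempty := ⟨⟨0, by omega⟩, Finset.mem_univ _⟩
    obtain ⟨i₀, -, hi₀⟩ := Finset.exists_max_image (Finset.univ : Finset (Fin j)) (fun i => |d i|) hne
    refine ⟨r / 2 - |d i₀|, by linarith [hd i₀], fun i => ?_⟩
    have := hi₀ i (Finset.mem_univ i)
    linarith
  obtain ⟨σ, hσ, hσ'⟩ := hfin
  refine ⟨Fin.cons y (fun i => p i - d i), min σ τ, lt_min hσ hτ, ?_⟩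
  have hcase : ∀ i : Fin j, ∀ e : ℝ, |e| < min σ τ → N S (y - (p i - d i) + e) := by
    intro i e he
    have := hρ' i e (he.trans_le ((min_le_left _ _).trans (hσ' i)))
    convert this using 1; ring
  intro a b hab e he
  refine Fin.cases ?_ ?_ a (motive := fun a => a ≠ b → N S ((Fin.cons y (fun i => p i - d i) : Fin (j+1) → ℝ) a -
    (Fin.cons y (fun i => p i - d i) : Fin (j+1) → ℝ) b + e)) hab
  · intro h
    refine Fin.cases ?_ ?_ b (motive := fun b => 0 ≠ b → N S ((Fin.cons y (fun i => p i - d i) : Fin (j+1) → ℝ) 0 -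
      (Fin.cons y (fun i => p i - d i) : Fin (j+1) → ℝ) b + e)) h
    · intro h; exact absurd rfl h
    · intro i _
      simp only [Fin.cons_zero, Fin.cons_succ]
      exact hcase i e he
  · intro i
    refine Fin.cases ?_ ?_ b (motive := fun b => i.succ ≠ b → N S ((Fin.cons y (fun i => p i - d i) : Fin (j+1) → ℝ) i.succ -
      (Fin.cons y (fun i => p i - d i) : Fin (j+1) → ℝ) b + e))
    · intro _
      simp only [Fin.cons_zero, Fin.cons_succ]
      have := N_neg (hcase i (-e) (by rwa [abs_neg]))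
      convert this using 1; ring
    · intro i' hne
      simp only [Fin.cons_succ]
      have hne' : i ≠ i' := fun h => hne (by rw [h])
      have h5 : |(- d i) + (d i' + e)| < r := by
        have h6 := abs_add_le (-d i) (d i' + e)
        have h7 := abs_add_le (d i') e
        rw [abs_neg] at h6
        have h8 := hτ' i
        have h9 := hτ' i'
        have h10 := he.trans_le (min_le_right σ τ)
        linarith
      have := hI i i' hne' _ h5
      convert this using 1; ring

end H13D
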