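import Pool.Agent.Helper13.DiffD

/-! Helper13 / DiffE: dilates. If `S` is closed and meets the differences of any four reals, then for positive
`λ_1, …, λ_m` the set of the `C` with all `λ_i C ∈ S` meets the differences of any `N = 1 + m + … + m^(2m+1)` reals
(a pigeonhole tree). -/

set_option autoImplicit false

open MeasureTheory Set

namespace H13D

/-- `1 + m + … + m^L`. -/
def sL (m : ℕ) : ℕ → ℕ
  | 0 => 1
  | L + 1 => 1 + m * sL m L

theorem sL_eq (m L : ℕ) : sL m L = 1 + ∑ i ∈ Finset.Icc 1 L, m ^ i := by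
  have h : ∀ L, sL m L = ∑ i ∈ Finset.range (L + 1), m ^ i := by
    intro L
    induction L with
    | zero => simp [sL]
    | succ L ih =>
      rw [sL, ih, Finset.sum_range_succ' _ (L + 1), Finset.mul_sum, add_comm]
      congr 1
      exact Finset.sum_congr rfl fun i _ => by ring
  have h2 : ∀ L, ∑ i ∈ Finset.Icc 1 L, m ^ i = ∑ i ∈ Finset.range L, m ^ (i + 1) := by
    intro L
    induction L with
    | zero => simp
    | succ L ih => rw [Finset.sum_Icc_succ_top (by omega), Finset.sum_range_succ, ih]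
  rw [h, Finset.sum_range_succ', h2, pow_zero, add_comm]

theorem tree {α : Type*} [DecidableEq α] {m : ℕ} (col : α → α → Fin m) :
    ∀ (L : ℕ) (X : Finset α), sL m L ≤ X.card →
      ∃ (v : Fin (L + 1) → α) (c : Fin (L + 1) → Option (Fin m)), Function.Injective v ∧ (∀ i, v i ∈ X) ∧
        (∀ i j, i < j → c i = some (col (v i) (v j))) := by
  intro L
  induction L with
  | zero =>
    intro X hX
    obtain ⟨x, hx⟩ := Finset.card_pos.1 (lt_of_lt_of_le (by norm_num [sL]) hX)
    refine ⟨fun _ => x, fun _ => none, ?_, fun _ => hx, ?_⟩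
    · intro a b _
      exact Subsingleton.elim (α := Fin 1) a b
    · intro i j hij
      have : i = j := Subsingleton.elim (α := Fin 1) i j
      exact absurd hij (by rw [this]; exact lt_irrefl _)
  | succ L ih =>
    intro X hX
    rw [sL] at hX
    obtain ⟨x, hx⟩ := Finset.card_pos.1 (lt_of_lt_of_le (by omega) hX)
    have hcard : m * sL m L ≤ (X.erase x).card := by
      rw [Finset.card_erase_of_mem hx]; omega
    by_cases hm : m = 0
    · exact absurd (col x x).isLt (by omega)
    have hpos : 0 < m := Nat.pos_of_ne_zero hm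
    obtain ⟨c₀, -, hc₀⟩ := Finset.exists_le_card_fiber_of_mul_le_card_of_maps_to
      (s := X.erase x) (t := (Finset.univ : Finset (Fin m))) (f := fun y => col x y) (n := sL m L)
      (fun a _ => Finset.mem_univ _) ⟨⟨0, hpos⟩, Finset.mem_univ _⟩ (by simpa using hcard)
    obtain ⟨v, c, hv, hvX, hvc⟩ := ih _ hc₀
    have hvX' : ∀ i, v i ∈ X ∧ v i ≠ x ∧ col x (v i) = c₀ := by
      intro i
      have := Finset.mem_filter.1 (hvX i)
      exact ⟨Finset.mem_of_mem_erase this.1, Finset.ne_of_mem_erase this.1, this.2⟩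
    refine ⟨Fin.cons x v, Fin.cons (some c₀) c, ?_, ?_, ?_⟩
    · rw [Fin.cons_injective_iff]
      refine ⟨?_, hv⟩
      rintro ⟨i, hi⟩
      exact (hvX' i).2.1 hi
    · intro i
      refine Fin.cases ?_ ?_ i
      · simpa using hx
      · intro i; simpa using (hvX' i).1
    · intro i j hij
      obtain ⟨j', rfl⟩ : ∃ j', Fin.succ j' = j := Fin.exists_succ_eq.2 (Fin.ne_zero_of_lt hij)
      rcases Fin.eq_zero_or_eq_succ i with rfl | ⟨i', rfl⟩
      · simp only [Fin.cons_zero, Fin.cons_succ]
        rw [(hvX' j').2.2]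
      · simp only [Fin.cons_succ]
        exact hvc i' j' (Fin.succ_lt_succ_iff.1 hij)

/-- the set of all `C` with `λ_i C ∈ S` for all `i` -/
def SLam (S : Set ℝ) {m : ℕ} (lam : Fin m → ℝ) : Set ℝ := {C | ∀ i, lam i * C ∈ S}

theorem SLam_closed {S : Set ℝ} (hS : IsClosed S) {m : ℕ} (lam : Fin m → ℝ) : IsClosed (SLam S lam) := by
  have : SLam S lam = ⋂ i, (fun x => lam i * x) ⁻¹' S := by
    ext x; simp [SLam]
  rw [this]
  exact isClosed_iInter fun i => hS.preimage (by fun_prop)

theorem SLam_PK {S : Set ℝ} (hP : P4 S) {m : ℕ} (hm : 1 ≤ m) (lam : Fin m → ℝ)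
    (hlam : ∀ i, 0 < lam i) : PK (sL m (2 * m + 1)) (SLam S lam) := by
  classical
  intro β hβ
  by_contra hcon
  push Not at hcon
  have hne : Nonempty (Fin m) := ⟨⟨0, hm⟩⟩
  have h1 : ∀ a b, ∃ c : Fin m, a ≠ b → N S (lam c * (β a - β b)) := by
    intro a b
    by_cases hab : a = b
    · exact ⟨Classical.arbitrary _, fun h => absurd hab h⟩
    · rcases lt_or_gt_of_ne (fun h => hab (hβ h)) with h | h
      · have h2 := hcon a b h
        unfold SLam at h2
        simp only [mem_ofPred_eq, not_forall] at h2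
        obtain ⟨c, hc⟩ := h2
        refine ⟨c, fun _ => ?_⟩
        have h3 := (N_pos (S := S) (x := lam c * (β b - β a))
          (mul_nonneg (hlam c).le (by linarith))).2 hc
        have h4 := N_neg h3
        convert h4 using 1; ring
      · have h2 := hcon b a h
        unfold SLam at h2
        simp only [mem_ofPred_eq, not_forall] at h2
        obtain ⟨c, hc⟩ := h2
        exact ⟨c, fun _ => (N_pos (S := S) (x := lam c * (β a - β b))
          (mul_nonneg (hlam c).le (by linarith))).2 hc⟩
  choose col hcol using h1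
  obtain ⟨v, c, hv, -, hvc⟩ := tree col (2 * m + 1) Finset.univ (by simp)
  -- the first `2 m + 1` vertices
  obtain ⟨c₀, -, hc₀⟩ := Finset.exists_lt_card_fiber_of_mul_lt_card_of_maps_to
    (s := (Finset.univ : Finset (Fin (2 * m + 1)))) (t := (Finset.univ : Finset (Fin m)))
    (f := fun i => col (v i.castSucc) (v (Fin.last _))) (n := 2)
    (fun a _ => Finset.mem_univ _) (by simp; omega)
  obtain ⟨F, hF⟩ : ∃ F : Finset (Fin (2 * m + 1 + 1)), F =
    insert (Fin.last _) ((Finset.univ.filter (fun i : Fin (2 * m + 1) =>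
      col (v i.castSucc) (v (Fin.last _)) = c₀)).map Fin.castSuccEmb) := ⟨_, rfl⟩
  have hFc : 4 ≤ F.card := by
    rw [hF, Finset.card_insert_of_notMem, Finset.card_map]
    · omega
    · intro h
      obtain ⟨i, -, hi⟩ := Finset.mem_map.1 h
      exact absurd hi (by simp [Fin.ext_iff]; have := i.isLt; omega)
  have hFcol : ∀ p ∈ F, ∀ q, p < q → c p = some c₀ → col (v p) (v q) = c₀ := by
    intro p _ q hpq hp
    have := hvc p q hpq
    rw [hp] at this
    exact (Option.some.inj this).symm
  have hFc₀ : ∀ p ∈ F, p ≠ Fin.last _ → c p = some c₀ := by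
    intro p hp hpl
    rw [hF, Finset.mem_insert] at hp
    rcases hp with hp | hp
    · exact absurd hp hpl
    · obtain ⟨i, hi, rfl⟩ := Finset.mem_map.1 hp
      have h2 := hvc (Fin.castSuccEmb i) (Fin.last _) (Fin.castSucc_lt_last i)
      rw [h2]
      exact congrArg some (Finset.mem_filter.1 hi).2
  obtain ⟨G, hGF, hG⟩ := Finset.exists_subset_card_eq hFc
  obtain ⟨i, j, hlt, hm'⟩ := hP (fun a => lam c₀ * β (v (G.orderEmbOfFin hG a))) (by
    intro a b hab
    have h2 := mul_left_cancel₀ (hlam c₀).ne' hab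
    exact (G.orderEmbOfFin hG).injective (hv (hβ h2)))
  obtain ⟨a, ha⟩ : ∃ a, a = G.orderEmbOfFin hG i := ⟨_, rfl⟩
  obtain ⟨b, hb⟩ : ∃ b, b = G.orderEmbOfFin hG j := ⟨_, rfl⟩
  have haF : a ∈ F := by rw [ha]; exact hGF (Finset.orderEmbOfFin_mem G hG i)
  have hbF : b ∈ F := by rw [hb]; exact hGF (Finset.orderEmbOfFin_mem G hG j)
  rw [← ha, ← hb] at hlt
  rw [← ha, ← hb] at hm'
  have hab : a ≠ b := by
    rintro h
    rw [h] at hlt
    exact absurd hlt (lt_irrefl _)
  have key : N S (lam c₀ * β (v b) - lam c₀ * β (v a)) := by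
    rw [← mul_sub]
    rcases lt_or_gt_of_ne hab with h | h
    · have h3 := hFcol a haF b h (hFc₀ a haF (ne_of_lt (h.trans_le (Fin.le_last b))))
      have h4 := hcol (v a) (v b) (fun h' => hab (hv h'))
      rw [h3] at h4
      have h5 := N_neg h4
      convert h5 using 1; ring
    · have h3 := hFcol b hbF a h (hFc₀ b hbF (ne_of_lt (h.trans_le (Fin.le_last a))))
      have h4 := hcol (v b) (v a) (fun h' => hab (hv h').symm)
      rw [h3] at h4
      exact h4
  exact (N_pos (by linarith)).1 key hm'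

end H13D
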