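import Pool.Agent.Helper13.DiffE

/-! Helper13 / DiffF: the density of the uniformly interior points of the dilation patterns. -/

set_option autoImplicit false

open MeasureTheory Set

namespace H13D

theorem V_move (D : Set ℝ) (a p T : ℝ) : V D (a - p) T ≤ V D a T + |p| := by
  unfold V
  rcases le_total 0 p with hp | hp
  · have h1 : D ∩ Ioc (a - p) (a - p + T) ⊆ (D ∩ Ioc a (a + T)) ∪ Ioc (a - p) a := by
      intro y hy
      rcases le_or_gt y a with h | h
      · exact Or.inr ⟨hy.2.1, h⟩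
      · exact Or.inl ⟨hy.1, h, by linarith [hy.2.2]⟩
    have h2 : volume.real (Ioc (a - p) a) = |p| := by
      rw [Real.volume_real_Ioc_of_le (by linarith), abs_of_nonneg hp]; ring
    rw [← h2]
    refine (measureReal_mono h1 ?_).trans (measureReal_union_le _ _)
    exact (measure_union_lt_top (fin_win _ _ _).lt_top
      (by rw [Real.volume_Ioc]; exact ENNReal.ofReal_lt_top)).ne
  · have h1 : D ∩ Ioc (a - p) (a - p + T) ⊆ (D ∩ Ioc a (a + T)) ∪ Ioc (a + T) (a - p + T) := by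
      intro y hy
      rcases le_or_gt y (a + T) with h | h
      · exact Or.inl ⟨hy.1, by linarith [hy.2.1], h⟩
      · exact Or.inr ⟨h, hy.2.2⟩
    have h2 : volume.real (Ioc (a + T) (a - p + T)) = |p| := by
      rw [Real.volume_real_Ioc_of_le (by linarith), abs_of_nonpos hp]; ring
    rw [← h2]
    refine (measureReal_mono h1 ?_).trans (measureReal_union_le _ _)
    exact (measure_union_lt_top (fin_win _ _ _).lt_top
      (by rw [Real.volume_Ioc]; exact ENNReal.ofReal_lt_top)).ne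

theorem V_cover_fin {D : Set ℝ} {j : ℕ} (hj : 1 ≤ j) (p : Fin j → ℝ) (hc : ∀ y : ℝ, ∃ i, y - p i ∈ D)
    (a : ℝ) {T : ℝ} (hT : 0 ≤ T) : T / j - ∑ i, |p i| ≤ V D a T := by
  have h1 : Ioc a (a + T) ⊆ ⋃ i : Fin j, ({y | y + (-p i) ∈ D} ∩ Ioc a (a + T)) := by
    intro y hy
    obtain ⟨i, hi⟩ := hc y
    exact mem_iUnion.2 ⟨i, by simpa [sub_eq_add_neg] using hi, hy⟩
  have h2 : volume.real (Ioc a (a + T)) = T := by
    rw [Real.volume_real_Ioc_of_le (by linarith)]; ring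
  have h3 : T ≤ ∑ i : Fin j, V {y | y + (-p i) ∈ D} a T := by
    calc T = volume.real (Ioc a (a + T)) := h2.symm
      _ ≤ _ := measureReal_mono h1 (by
          refine ((measure_mono (iUnion_subset fun i => inter_subset_right)).trans_lt
            (?_ : volume (Ioc a (a + T)) < ⊤)).ne
          rw [Real.volume_Ioc]
          exact ENNReal.ofReal_lt_top)
      _ ≤ _ := measureReal_iUnion_fintype_le _
  have h4 : ∑ i : Fin j, V {y | y + (-p i) ∈ D} a T ≤ ∑ i : Fin j, (V D a T + |p i|) := by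
    refine Finset.sum_le_sum fun i _ => ?_
    rw [V_shift, ← sub_eq_add_neg]
    exact V_move D a (p i) T
  rw [Finset.sum_add_distrib, Finset.sum_const, Finset.card_univ, Fintype.card_fin, nsmul_eq_mul] at h4
  have hj1 : (1 : ℝ) ≤ j := by exact_mod_cast hj
  have h5 : 0 ≤ ∑ i, |p i| := Finset.sum_nonneg fun i _ => abs_nonneg _
  have h6 : T / j ≤ V D a T + (∑ i, |p i|) / j := by
    rw [div_le_iff₀ (by linarith)]
    have : (V D a T + (∑ i, |p i|) / j) * j = j * V D a T + ∑ i, |p i| := by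
      field_simp
    rw [this]
    linarith
  have h7 : (∑ i, |p i|) / j ≤ ∑ i, |p i| := div_le_self h5 hj1
  linarith

/-- **Main theorem on patterns.** -/
theorem patterns {S : Set ℝ} (hS : IsClosed S) (hP : P4 S) {m : ℕ} (hm : 1 ≤ m) (lam : Fin m → ℝ)
    (hlam : ∀ i, 0 < lam i) :
    ∃ r : ℝ, 0 < r ∧ ∃ M : ℝ, ∀ a T : ℝ, 0 ≤ a → 0 ≤ T →
      T / (∑ i ∈ Finset.Icc 1 (2 * m + 1), (m : ℝ) ^ i) - M ≤
        (volume ({x : ℝ | ∀ y : ℝ, x - r ≤ y → y ≤ x + r → ∀ i, lam i * y ∈ S} ∩ Icc a (a + T))).toReal := by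
  obtain ⟨j, p, r, hj1, hjk, hr, hc⟩ := cover_PK (SLam_closed hS lam) (SLam_PK hP hm lam hlam)
  rw [sL_eq] at hjk
  have hjk' : (j : ℝ) ≤ ∑ i ∈ Finset.Icc 1 (2 * m + 1), (m : ℝ) ^ i := by
    have h : j ≤ ∑ i ∈ Finset.Icc 1 (2 * m + 1), m ^ i := by omega
    exact_mod_cast h
  have hj1' : (1 : ℝ) ≤ j := by exact_mod_cast hj1
  refine ⟨r / 2, by linarith, ∑ i, |p i| + r, ?_⟩
  intro a T ha hT
  have h1 := V_cover_fin (D := {x | ∀ d : ℝ, |d| < r → |x + d| ∈ SLam S lam}) hj1 p hc a hT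
  have h2 : T / (∑ i ∈ Finset.Icc 1 (2 * m + 1), (m : ℝ) ^ i) ≤ T / j :=
    div_le_div_of_nonneg_left hT (by linarith) hjk'
  obtain ⟨E, hE⟩ : ∃ E : Set ℝ, E = {x : ℝ | ∀ y : ℝ, x - r / 2 ≤ y → y ≤ x + r / 2 → ∀ i, lam i * y ∈ S} :=
    ⟨_, rfl⟩
  rw [← hE]
  have h3 : V {x | ∀ d : ℝ, |d| < r → |x + d| ∈ SLam S lam} a T ≤
      (volume (E ∩ Icc a (a + T))).toReal + r := by
    have h4 : {x | ∀ d : ℝ, |d| < r → |x + d| ∈ SLam S lam} ∩ Ioc a (a + T) ⊆
        (E ∩ Icc a (a + T)) ∪ Ioc 0 r := by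
      intro x hx
      have hx0 : 0 < x := ha.trans_lt hx.2.1
      rcases le_or_gt x r with h | h
      · exact Or.inr ⟨hx0, h⟩
      · refine Or.inl ⟨?_, hx.2.1.le, hx.2.2⟩
        rw [hE]
        intro y hy1 hy2 i
        have h5 := hx.1 (y - x) (by rw [abs_lt]; constructor <;> linarith)
        rw [add_sub_cancel, abs_of_nonneg (by linarith)] at h5
        exact h5 i
    have h6 : volume.real (Ioc (0 : ℝ) r) = r := by
      rw [Real.volume_real_Ioc_of_le hr.le, sub_zero]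
    have h7 : volume (E ∩ Icc a (a + T)) ≠ ⊤ :=
      ((measure_mono inter_subset_right).trans_lt measure_Icc_lt_top).ne
    calc V {x | ∀ d : ℝ, |d| < r → |x + d| ∈ SLam S lam} a T
        ≤ volume.real ((E ∩ Icc a (a + T)) ∪ Ioc 0 r) := by
          refine measureReal_mono h4 (measure_union_lt_top h7.lt_top ?_).ne
          rw [Real.volume_Ioc]; exact ENNReal.ofReal_lt_top
      _ ≤ volume.real (E ∩ Icc a (a + T)) + volume.real (Ioc (0 : ℝ) r) := measureReal_union_le _ _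
      _ = _ := by rw [h6]; rfl
  linarith

end H13D
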